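import Pool.Agent.Helper60.PlzA.Goals

/-!
# Project PLA (MP_8e7d5e_co), packet MID: the gain of a middle index
-/

set_option autoImplicit false

namespace Pool.Agent.Helper93.PlzA

open Finset Pool.Agent.Helper93.Plz Pool.Agent.Helper60.PlzA

open scoped Classical

variable {V : Type}

/-- The indicator of adjacency. -/
noncomputable def ia (G : SimpleGraph V) (a b : V) : ℝ := if G.Adj a b then 1 else 0

theorem ia_nonneg (G : SimpleGraph V) (a b : V) : 0 ≤ ia G a b := by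
  unfold ia; split_ifs <;> norm_num

theorem ia_le_one (G : SimpleGraph V) (a b : V) : ia G a b ≤ 1 := by
  unfold ia; split_ifs <;> norm_num

theorem ia_comm (G : SimpleGraph V) (a b : V) : ia G a b = ia G b a := by
  unfold ia; rw [G.adj_comm]

theorem ia_mul_self (G : SimpleGraph V) (a b : V) : ia G a b * ia G a b = ia G a b := by
  unfold ia; split_ifs <;> norm_num

theorem ia_mul (G : SimpleGraph V) (a b c d : V) :
    ia G a b * ia G c d = if G.Adj a b ∧ G.Adj c d then 1 else 0 := by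
  unfold ia
  by_cases h1 : G.Adj a b <;> by_cases h2 : G.Adj c d <;> simp [h1, h2]

variable [Fintype V]

theorem cod_eq (G : SimpleGraph V) (a b : V) :
    (cod G a b : ℝ) = ∑ w, ia G a w * ia G b w := by
  unfold cod cmn
  rw [card_eq_sum_ones, Nat.cast_sum, sum_filter]
  refine sum_congr rfl fun w _ => ?_
  rw [ia_mul]
  simp

theorem dgr_eq (G : SimpleGraph V) (v : V) : (dgr G v : ℝ) = ∑ w, ia G v w := by
  unfold dgr nbs ia
  rw [card_eq_sum_ones, Nat.cast_sum, sum_filter]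
  simp

theorem sum_nbs (G : SimpleGraph V) (v : V) (F : V → ℝ) :
    ∑ z ∈ nbs G v, F z = ∑ z, ia G v z * F z := by
  unfold nbs ia
  rw [sum_filter]
  refine sum_congr rfl fun w _ => ?_
  split_ifs <;> simp

theorem cod_comm (G : SimpleGraph V) (a b : V) : cod G a b = cod G b a := by
  have h : (cod G a b : ℝ) = cod G b a := by
    rw [cod_eq, cod_eq]
    exact sum_congr rfl fun w _ => mul_comm _ _
  exact_mod_cast h

theorem cod_le (G : SimpleGraph V) {t : ℕ} (h : ∀ v, dgr G v ≤ t) (a b : V) :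
    (cod G a b : ℝ) ≤ t := by
  have h1 : (cod G a b : ℝ) ≤ dgr G a := by
    rw [cod_eq, dgr_eq]
    refine sum_le_sum fun w _ => ?_
    have := ia_nonneg G a w
    have := ia_le_one G b w
    nlinarith [ia_nonneg G b w]
  exact h1.trans (by exact_mod_cast h a)

theorem rho2_le (G : SimpleGraph V) {t : ℕ} (h : ∀ v, dgr G v ≤ t) (v : V) :
    (rho2 G v : ℝ) ≤ (t : ℝ) ^ 2 := by
  unfold rho2
  rw [Nat.cast_sum]
  calc ∑ y ∈ nbs G v, (cod G v y : ℝ) ≤ ∑ _y ∈ nbs G v, (t : ℝ) :=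
        sum_le_sum fun y _ => cod_le G h v y
    _ = dgr G v * t := by rw [sum_const, nsmul_eq_mul]; rfl
    _ ≤ t * t := by
        have : (dgr G v : ℝ) ≤ t := by exact_mod_cast h v
        gcongr
    _ = (t : ℝ) ^ 2 := by ring

/-- Sums over sequences. -/
theorem sum_cons {n : ℕ} (F : (Fin (n + 1) → V) → ℝ) :
    ∑ y, F y = ∑ a, ∑ y', F (Fin.cons a y') := by
  rw [← (Fin.consEquiv (fun _ : Fin (n + 1) => V)).sum_comp, Fintype.sum_prod_type]
  rfl

theorem sum5 (F : (Fin 5 → V) → ℝ) :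
    ∑ y, F y = ∑ a, ∑ b, ∑ c, ∑ d, ∑ e, F ![a, b, c, d, e] := by
  rw [sum_cons]
  refine sum_congr rfl fun a _ => ?_
  rw [sum_cons]
  refine sum_congr rfl fun b _ => ?_
  rw [sum_cons]
  refine sum_congr rfl fun c _ => ?_
  rw [sum_cons]
  refine sum_congr rfl fun d _ => ?_
  rw [sum_cons]
  refine sum_congr rfl fun e _ => ?_
  rw [Fintype.sum_unique]
  congr 1

theorem sum2 (F : (Fin 2 → V) → ℝ) : ∑ y, F y = ∑ a, ∑ b, F ![a, b] := by
  rw [sum_cons]
  refine sum_congr rfl fun a _ => ?_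
  rw [sum_cons]
  refine sum_congr rfl fun b _ => ?_
  rw [Fintype.sum_unique]
  congr 1

/-- Sums over the walks with one step. -/
theorem wk1 (G : SimpleGraph V) (g : V → V → ℝ) :
    ∑ y ∈ Wk G 1, g (y 0) (y 1) = ∑ v, ∑ z, ia G v z * g z v := by
  unfold Wk
  rw [sum_filter, sum2, sum_comm]
  refine sum_congr rfl fun v _ => sum_congr rfl fun z _ => ?_
  have h : (∀ i < 1, G.Adj (ev ![z, v] i) (ev ![z, v] (i + 1))) ↔ G.Adj v z := by
    constructor
    · intro h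
      exact (h 0 (by norm_num)).symm
    · intro h i hi
      interval_cases i
      exact h.symm
  unfold ia
  by_cases hv : G.Adj v z
  · rw [if_pos (h.2 hv), if_pos hv]
    simp
  · rw [if_neg (fun hh => hv (h.1 hh)), if_neg hv]
    simp

/-- The condition that the middle index of a window is not kept. -/
def NK (G : SimpleGraph V) (y : Fin 5 → V) : Prop :=
  G.Adj (y 0) (y 2) ∧ G.Adj (y 1) (y 3) ∧ G.Adj (y 2) (y 4)

theorem wk4 (G : SimpleGraph V) (g : V → V → ℝ) :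
    ∑ y ∈ Wk G 4, (if NK G y then g (y 2) (y 3) else 0) =
      ∑ a, ∑ b, ∑ c, ∑ d, ∑ e, ia G a b * (ia G a c * ia G b c * ia G c d * ia G b d *
        (ia G d e * ia G c e)) * g c d := by
  unfold Wk
  rw [sum_filter, sum5]
  refine sum_congr rfl fun a _ => sum_congr rfl fun b _ => sum_congr rfl fun c _ =>
    sum_congr rfl fun d _ => sum_congr rfl fun e _ => ?_
  have h : (∀ i < 4, G.Adj (ev ![a, b, c, d, e] i) (ev ![a, b, c, d, e] (i + 1))) ↔
      G.Adj a b ∧ G.Adj b c ∧ G.Adj c d ∧ G.Adj d e := by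
    constructor
    · intro h
      exact ⟨h 0 (by norm_num), h 1 (by norm_num), h 2 (by norm_num), h 3 (by norm_num)⟩
    · rintro ⟨h1, h2, h3, h4⟩ i hi
      interval_cases i
      · exact h1
      · exact h2
      · exact h3
      · exact h4
  have h2 : NK G ![a, b, c, d, e] ↔ G.Adj a c ∧ G.Adj b d ∧ G.Adj c e := Iff.rfl
  rw [if_congr h rfl rfl, if_congr h2 rfl rfl]
  show (if _ then (if _ then g c d else 0) else 0) = _
  unfold ia
  by_cases h1 : G.Adj a b <;> by_cases h2 : G.Adj b c <;> by_cases h3 : G.Adj c d <;>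
    by_cases h4 : G.Adj d e <;> by_cases h5 : G.Adj a c <;> by_cases h6 : G.Adj b d <;>
    by_cases h7 : G.Adj c e <;> simp [h1, h2, h3, h4, h5, h6, h7]

theorem sum_reorder (h : V → V → V → V → ℝ) :
    ∑ a, ∑ b, ∑ c, ∑ d, h a b c d = ∑ d, ∑ c, ∑ a, ∑ b, h a b c d := by
  calc ∑ a, ∑ b, ∑ c, ∑ d, h a b c d = ∑ a, ∑ b, ∑ d, ∑ c, h a b c d :=
        sum_congr rfl fun a _ => sum_congr rfl fun b _ => sum_comm
    _ = ∑ a, ∑ d, ∑ b, ∑ c, h a b c d := sum_congr rfl fun a _ => sum_comm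
    _ = ∑ d, ∑ a, ∑ b, ∑ c, h a b c d := sum_comm
    _ = ∑ d, ∑ a, ∑ c, ∑ b, h a b c d :=
        sum_congr rfl fun d _ => sum_congr rfl fun a _ => sum_comm
    _ = ∑ d, ∑ c, ∑ a, ∑ b, h a b c d := sum_congr rfl fun d _ => sum_comm

theorem prod3 (A B E : V → ℝ) (K : ℝ) :
    ∑ a, ∑ b, ∑ e, A a * (B b * (E e * K)) = (∑ a, A a) * ((∑ b, B b) * ((∑ e, E e) * K)) := by
  rw [sum_mul]
  refine sum_congr rfl fun a _ => ?_
  rw [sum_mul, mul_sum]
  refine sum_congr rfl fun b _ => ?_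
  rw [sum_mul, mul_sum, mul_sum]

theorem cub (G : SimpleGraph V) (g : V → V → ℝ) :
    ∑ a, ∑ b, ∑ c, ∑ d, ∑ e, ia G a d * (ia G a c * ia G b c * ia G c d * ia G b d *
        (ia G d e * ia G c e)) * g c d = ∑ v, ∑ z, ia G v z * (g z v * (cod G z v : ℝ) ^ 3) := by
  rw [sum_reorder]
  refine sum_congr rfl fun v _ => sum_congr rfl fun z _ => ?_
  have h := prod3 (fun a => ia G z a * ia G v a) (fun b => ia G z b * ia G v b)
    (fun e => ia G z e * ia G v e) (ia G v z * g z v)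
  rw [← cod_eq] at h
  have h2 : ia G v z * (g z v * (cod G z v : ℝ) ^ 3) =
      (cod G z v : ℝ) * ((cod G z v : ℝ) * ((cod G z v : ℝ) * (ia G v z * g z v))) := by ring
  rw [h2, ← h]
  refine sum_congr rfl fun a _ => sum_congr rfl fun b _ => sum_congr rfl fun e _ => ?_
  rw [ia_comm G a v, ia_comm G a z, ia_comm G b z, ia_comm G z v, ia_comm G b v]
  ring

theorem XB (G : SimpleGraph V) (t : ℕ) (hd : ∀ v, dgr G v ≤ t) :
    ∑ a, ∑ b, ∑ c, ∑ d, ia G a b * (1 - ia G a d) *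
      (ia G a c * ia G b c * ia G c d * ia G b d) ≤
    (∑ a, ∑ b, (if a ≠ b ∧ ¬ G.Adj a b then (cod G a b : ℝ) ^ 2 else 0)) +
      Fintype.card V * (t : ℝ) ^ 2 := by
  rw [sum_reorder]
  have key : ∀ d c a b : V, ia G a b * (1 - ia G a d) *
      (ia G a c * ia G b c * ia G c d * ia G b d) ≤
      (if a ≠ d ∧ ¬ G.Adj a d then (ia G a b * ia G d b) * (ia G a c * ia G d c) else 0) +
      (if a = d then ia G a b * ia G a c else 0) := by
    intro d c a b
    have p1 := ia_nonneg G a b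
    have p2 := ia_nonneg G a c
    have p3 := ia_nonneg G b c
    have p4 := ia_nonneg G c d
    have p5 := ia_nonneg G b d
    have q3 := ia_le_one G b c
    have q4 := ia_le_one G c d
    have q5 := ia_le_one G b d
    by_cases h1 : a = d
    · subst h1
      have h0 : ia G a a = 0 := by unfold ia; simp
      rw [if_neg (by simp), if_pos rfl, h0]
      have e1 : ia G b c * ia G c a * ia G b a ≤ 1 := by
        have : ia G b c * ia G c a ≤ 1 := mul_le_one₀ q3 p4 q4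
        exact mul_le_one₀ this p5 q5
      have e2 : 0 ≤ ia G a b * ia G a c := mul_nonneg p1 p2
      nlinarith
    · rw [if_neg h1, add_zero]
      by_cases h2 : G.Adj a d
      · rw [if_neg (by simp [h2])]
        have h0 : ia G a d = 1 := by unfold ia; simp [h2]
        rw [h0]
        simp
      · rw [if_pos ⟨h1, h2⟩]
        have h0 : ia G a d = 0 := by unfold ia; simp [h2]
        rw [h0, ia_comm G d b, ia_comm G d c]
        have e2 : 0 ≤ ia G a b * ia G b d * (ia G a c * ia G c d) := by positivity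
        nlinarith
  refine (sum_le_sum fun d _ => sum_le_sum fun c _ => sum_le_sum fun a _ =>
    sum_le_sum fun b _ => key d c a b).trans ?_
  simp only [sum_add_distrib]
  refine add_le_add (le_of_eq ?_) ?_
  · -- first part
    rw [sum_comm (f := fun a b : V => if a ≠ b ∧ ¬ G.Adj a b then (cod G a b : ℝ) ^ 2 else 0)]
    refine sum_congr rfl fun d _ => ?_
    rw [sum_comm]
    refine sum_congr rfl fun a _ => ?_
    by_cases h : a ≠ d ∧ ¬ G.Adj a d
    · simp only [if_pos h]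
      rw [pow_two, cod_eq, sum_comm, sum_mul_sum]
    · simp only [if_neg h]
      simp
  · have h2 : ∀ d : V, ∑ c, ∑ a, ∑ b, (if a = d then ia G a b * ia G a c else 0) ≤ (t : ℝ) ^ 2 := by
      intro d
      have h3 : ∑ c, ∑ a, ∑ b, (if a = d then ia G a b * ia G a c else 0) =
          (∑ b, ia G d b) * (∑ c, ia G d c) := by
        rw [sum_mul_sum, sum_comm]
        rw [sum_eq_single d]
        · simp only [if_true]
          rw [sum_comm]
        · intro a _ ha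
          simp [ha]
        · intro h; exact absurd (mem_univ d) h
      rw [h3, ← dgr_eq]
      have h4 : (dgr G d : ℝ) ≤ t := by exact_mod_cast hd d
      have h5 : (0 : ℝ) ≤ dgr G d := Nat.cast_nonneg _
      nlinarith
    refine (sum_le_sum fun d _ => h2 d).trans (le_of_eq ?_)
    simp

theorem XB' (G : SimpleGraph V) (t : ℕ) (hd : ∀ v, dgr G v ≤ t) :
    ∑ a, ∑ b, ∑ c, ∑ d, ia G a d * (1 - ia G a b) *
      (ia G a c * ia G b c * ia G c d * ia G b d) ≤
    (∑ a, ∑ b, (if a ≠ b ∧ ¬ G.Adj a b then (cod G a b : ℝ) ^ 2 else 0)) +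
      Fintype.card V * (t : ℝ) ^ 2 := by
  refine le_trans (le_of_eq ?_) (XB G t hd)
  refine sum_congr rfl fun a _ => ?_
  calc ∑ b, ∑ c, ∑ d, ia G a d * (1 - ia G a b) *
      (ia G a c * ia G b c * ia G c d * ia G b d) =
      ∑ b, ∑ d, ∑ c, ia G a d * (1 - ia G a b) *
      (ia G a c * ia G b c * ia G c d * ia G b d) := sum_congr rfl fun b _ => sum_comm
    _ = ∑ d, ∑ b, ∑ c, ia G a d * (1 - ia G a b) *
      (ia G a c * ia G b c * ia G c d * ia G b d) := sum_comm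
    _ = ∑ d, ∑ c, ∑ b, ia G a d * (1 - ia G a b) *
      (ia G a c * ia G b c * ia G c d * ia G b d) := sum_congr rfl fun d _ => sum_comm
    _ = _ := by
      refine sum_congr rfl fun d _ => sum_congr rfl fun c _ => sum_congr rfl fun b _ => ?_
      rw [ia_comm G b c, ia_comm G c d, ia_comm G b d]
      ring

theorem DB (G : SimpleGraph V) (t : ℕ) (hd : ∀ v, dgr G v ≤ t) (g : V → V → ℝ)
    (hg : ∀ z v, |g z v| ≤ 2 * (t : ℝ) ^ 2) :
    |(∑ a, ∑ b, ∑ c, ∑ d, ∑ e, ia G a b * (ia G a c * ia G b c * ia G c d * ia G b d *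
        (ia G d e * ia G c e)) * g c d) - ∑ v, ∑ z, ia G v z * (g z v * (cod G z v : ℝ) ^ 3)| ≤
    4 * (t : ℝ) ^ 3 * ((∑ a, ∑ b, (if a ≠ b ∧ ¬ G.Adj a b then (cod G a b : ℝ) ^ 2 else 0)) +
      Fintype.card V * (t : ℝ) ^ 2) := by
  rw [← cub]
  have ht0 : (0 : ℝ) ≤ t := Nat.cast_nonneg _
  have e1 : (∑ a, ∑ b, ∑ c, ∑ d, ∑ e, ia G a b * (ia G a c * ia G b c * ia G c d * ia G b d *
        (ia G d e * ia G c e)) * g c d) - ∑ a, ∑ b, ∑ c, ∑ d, ∑ e, ia G a d * (ia G a c *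
        ia G b c * ia G c d * ia G b d * (ia G d e * ia G c e)) * g c d =
      ∑ a, ∑ b, ∑ c, ∑ d, ∑ e, (ia G a b - ia G a d) * (ia G a c * ia G b c * ia G c d *
        ia G b d * (ia G d e * ia G c e)) * g c d := by
    simp only [← sum_sub_distrib]
    refine sum_congr rfl fun a _ => sum_congr rfl fun b _ => sum_congr rfl fun c _ =>
      sum_congr rfl fun d _ => sum_congr rfl fun e _ => by ring
  rw [e1]
  have key : ∀ a b c d : V, |∑ e, (ia G a b - ia G a d) * (ia G a c * ia G b c * ia G c d *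
        ia G b d * (ia G d e * ia G c e)) * g c d| ≤
      2 * (t : ℝ) ^ 3 * (ia G a b * (1 - ia G a d) * (ia G a c * ia G b c * ia G c d * ia G b d) +
        ia G a d * (1 - ia G a b) * (ia G a c * ia G b c * ia G c d * ia G b d)) := by
    intro a b c d
    set Q : ℝ := ia G a c * ia G b c * ia G c d * ia G b d with hQ
    have hQ0 : 0 ≤ Q := by
      have p2 := ia_nonneg G a c
      have p3 := ia_nonneg G b c
      have p4 := ia_nonneg G c d
      have p5 := ia_nonneg G b d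
      positivity
    have p1 := ia_nonneg G a b
    have p6 := ia_nonneg G a d
    have q1 := ia_le_one G a b
    have q6 := ia_le_one G a d
    have hP : |ia G a b - ia G a d| ≤ ia G a b * (1 - ia G a d) + ia G a d * (1 - ia G a b) := by
      unfold ia
      split_ifs <;> norm_num
    have e2 : ∑ e, (ia G a b - ia G a d) * (Q * (ia G d e * ia G c e)) * g c d =
        (ia G a b - ia G a d) * Q * (cod G d c : ℝ) * g c d := by
      rw [cod_eq, mul_sum, sum_mul]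
      refine sum_congr rfl fun e _ => by ring
    rw [e2, abs_mul, abs_mul, abs_mul, abs_of_nonneg hQ0]
    have hc0 : (0 : ℝ) ≤ cod G d c := Nat.cast_nonneg _
    rw [abs_of_nonneg hc0]
    have hc1 := cod_le G hd d c
    calc |ia G a b - ia G a d| * Q * (cod G d c : ℝ) * |g c d| ≤
        (ia G a b * (1 - ia G a d) + ia G a d * (1 - ia G a b)) * Q * t * (2 * (t : ℝ) ^ 2) := by
          have h9 : 0 ≤ ia G a b * (1 - ia G a d) + ia G a d * (1 - ia G a b) :=
            (abs_nonneg _).trans hP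
          have h8 := hg c d
          gcongr
      _ = _ := by ring
  calc |∑ a, ∑ b, ∑ c, ∑ d, ∑ e, (ia G a b - ia G a d) * (ia G a c * ia G b c * ia G c d *
        ia G b d * (ia G d e * ia G c e)) * g c d| ≤
      ∑ a, ∑ b, ∑ c, ∑ d, |∑ e, (ia G a b - ia G a d) * (ia G a c * ia G b c * ia G c d *
        ia G b d * (ia G d e * ia G c e)) * g c d| := by
        refine (abs_sum_le_sum_abs _ _).trans (sum_le_sum fun a _ => ?_)
        refine (abs_sum_le_sum_abs _ _).trans (sum_le_sum fun b _ => ?_)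
        refine (abs_sum_le_sum_abs _ _).trans (sum_le_sum fun c _ => ?_)
        exact abs_sum_le_sum_abs _ _
    _ ≤ ∑ a, ∑ b, ∑ c, ∑ d, 2 * (t : ℝ) ^ 3 * (ia G a b * (1 - ia G a d) *
        (ia G a c * ia G b c * ia G c d * ia G b d) +
        ia G a d * (1 - ia G a b) * (ia G a c * ia G b c * ia G c d * ia G b d)) :=
        sum_le_sum fun a _ => sum_le_sum fun b _ => sum_le_sum fun c _ =>
          sum_le_sum fun d _ => key a b c d
    _ = 2 * (t : ℝ) ^ 3 * ((∑ a, ∑ b, ∑ c, ∑ d, ia G a b * (1 - ia G a d) *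
        (ia G a c * ia G b c * ia G c d * ia G b d)) +
        ∑ a, ∑ b, ∑ c, ∑ d, ia G a d * (1 - ia G a b) *
        (ia G a c * ia G b c * ia G c d * ia G b d)) := by
        simp only [← sum_add_distrib, mul_sum]
    _ ≤ 2 * (t : ℝ) ^ 3 * (((∑ a, ∑ b, (if a ≠ b ∧ ¬ G.Adj a b then (cod G a b : ℝ) ^ 2 else 0)) +
      Fintype.card V * (t : ℝ) ^ 2) +
      ((∑ a, ∑ b, (if a ≠ b ∧ ¬ G.Adj a b then (cod G a b : ℝ) ^ 2 else 0)) +
      Fintype.card V * (t : ℝ) ^ 2)) := by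
        have h1 := XB G t hd
        have h2 := XB' G t hd
        gcongr
    _ = _ := by ring

theorem g_bound (G : SimpleGraph V) (t : ℕ) (hd : ∀ v, dgr G v ≤ t) (κ : ℝ) (h0 : 0 ≤ κ)
    (h1 : κ ≤ 1 / 4) (z v : V) :
    |(1 / 4 + κ) * (t : ℝ) ^ 2 - rho2 G v + (cod G z v : ℝ) ^ 2| ≤ 2 * (t : ℝ) ^ 2 := by
  have a1 := rho2_le G hd v
  have a2 : (0 : ℝ) ≤ rho2 G v := Nat.cast_nonneg _
  have a3 := cod_le G hd z v
  have a4 : (0 : ℝ) ≤ cod G z v := Nat.cast_nonneg _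
  have a5 : (cod G z v : ℝ) ^ 2 ≤ (t : ℝ) ^ 2 := by gcongr
  have a6 : 0 ≤ κ * (t : ℝ) ^ 2 := by positivity
  have a7 : κ * (t : ℝ) ^ 2 ≤ 1 / 4 * (t : ℝ) ^ 2 := by gcongr
  have a8 : 0 ≤ (cod G z v : ℝ) ^ 2 := by positivity
  rw [abs_le]
  constructor <;> nlinarith

theorem mid (h1 : S_WINT) (h2 : S_BONE) : S_MID := by
  intro V _ G t γ κ hκ0 hκ1 hR k i hi hik
  set g : V → V → ℝ := fun z v => (1 / 4 + κ) * (t : ℝ) ^ 2 - rho2 G v + (cod G z v : ℝ) ^ 2
    with hg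
  have hgb : ∀ z v, |g z v| ≤ 2 * (t : ℝ) ^ 2 := fun z v => g_bound G t hR.deg κ hκ0 hκ1 z v
  set n : ℝ := (Fintype.card V : ℝ) with hn
  have hn0 : 0 ≤ n := Nat.cast_nonneg _
  have ht : t ≠ 0 := by
    intro h
    have := hR.one
    rw [h] at this
    norm_num at this
  have htp : (0 : ℝ) < t := by
    have : 0 < t := Nat.pos_of_ne_zero ht
    exact_mod_cast this
  have hγ : 0 < γ := by
    by_contra hc
    push Not at hc
    have := hR.one
    nlinarith
  have hone := hR.one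
  -- the function of a window
  set f : (Fin (4 + 1) → V) → ℝ := fun y => if NK G y then 0 else g (y 2) (y 3) with hf
  have hfb : ∀ y, |f y| ≤ 2 * (t : ℝ) ^ 2 := by
    intro y
    rw [hf]
    simp only
    split_ifs
    · rw [abs_zero]; positivity
    · exact hgb _ _
  have w1 := h1 V _ G t γ hR.deg hR.dfc k (i - 3) 4 (by omega) f (2 * (t : ℝ) ^ 2) hfb
  -- left side is the sum of gains
  have L1 : ∑ x ∈ (Wk G k).filter (fun x => Kp G x i), gain G t κ x i =
      ∑ x ∈ Wk G k, f (fun j => ev x (i - 3 + (j : ℕ))) := by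
    rw [sum_filter]
    refine sum_congr rfl fun x _ => ?_
    have e0 : i - 3 + 1 = i - 2 := by omega
    have e1 : i - 3 + 2 = i - 1 := by omega
    have e2 : i - 3 + 3 = i := by omega
    have e3 : i - 3 + 4 = i + 1 := by omega
    have hNK : NK G (fun j : Fin 5 => ev x (i - 3 + (j : ℕ))) ↔
        (Tr G x (i - 2) ∧ Tr G x (i - 1) ∧ Tr G x i) := by
      unfold NK Tr
      have c0 : i - 2 - 1 = i - 3 := by omega
      have c1 : i - 2 + 1 = i - 1 := by omega
      have c2 : i - 1 - 1 = i - 2 := by omega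
      have c3 : i - 1 + 1 = i := by omega
      rw [c0, c1, c2, c3]
      show G.Adj (ev x (i - 3 + 0)) (ev x (i - 3 + 2)) ∧ G.Adj (ev x (i - 3 + 1)) (ev x (i - 3 + 3)) ∧
        G.Adj (ev x (i - 3 + 2)) (ev x (i - 3 + 4)) ↔ _
      rw [e0, e1, e2, e3, Nat.add_zero]
    have hK : Kp G x i ↔ ¬ NK G (fun j : Fin 5 => ev x (i - 3 + (j : ℕ))) := by
      rw [hNK]
      unfold Kp
      constructor
      · rintro ⟨-, h⟩ h'
        exact h ⟨hi, hik, h'⟩
      · intro h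
        exact ⟨by omega, fun h' => h h'.2.2⟩
    rw [hf]
    simp only
    by_cases hc : NK G (fun j : Fin 5 => ev x (i - 3 + (j : ℕ)))
    · rw [if_neg (by rw [hK]; exact fun h => h hc), if_pos hc]
    · rw [if_pos (hK.2 hc), if_neg hc]
      unfold gain
      rw [if_pos (by omega : 1 ≤ i), hg]
      show _ = (1 / 4 + κ) * (t : ℝ) ^ 2 - rho2 G (ev x (i - 3 + 3)) +
        (cod G (ev x (i - 3 + 2)) (ev x (i - 3 + 3)) : ℝ) ^ 2
      rw [e1, e2]
  rw [L1]
  -- the window sums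
  have w2 := h1 V _ G t γ hR.deg hR.dfc 4 2 1 (by norm_num)
    (fun y => g (y 0) (y 1)) (2 * (t : ℝ) ^ 2) (fun y => hgb _ _)
  have w3 : ∑ y ∈ Wk G 4, (fun y : Fin (1 + 1) → V => g (y 0) (y 1))
      (fun j => ev y (2 + (j : ℕ))) = ∑ y ∈ Wk G 4, g (y 2) (y 3) := by
    refine sum_congr rfl fun y _ => rfl
  rw [w3, wk1 G g] at w2
  have w4 : ∑ y ∈ Wk G 4, f y = ∑ y ∈ Wk G 4, g (y 2) (y 3) -
      ∑ y ∈ Wk G 4, (if NK G y then g (y 2) (y 3) else 0) := by
    rw [← sum_sub_distrib]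
    refine sum_congr rfl fun y _ => ?_
    rw [hf]
    simp only
    split_ifs <;> ring
  rw [wk4] at w4
  have w5 := DB G t hR.deg g hgb
  have w6 := h2 V _ G t γ hR
  -- combine
  set S1 : ℝ := ∑ y ∈ Wk G 4, f y with hS1
  set S2 : ℝ := ∑ y ∈ Wk G 4, g (y 2) (y 3) with hS2
  set S3 : ℝ := ∑ v, ∑ z, ia G v z * g z v with hS3
  set S4 : ℝ := ∑ v, ∑ z, ia G v z * (g z v * (cod G z v : ℝ) ^ 3) with hS4
  set S5 : ℝ := ∑ a, ∑ b, (if a ≠ b ∧ ¬ G.Adj a b then (cod G a b : ℝ) ^ 2 else 0) with hS5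
  set S6 : ℝ := ∑ a, ∑ b, ∑ c, ∑ d, ∑ e, ia G a b * (ia G a c * ia G b c * ia G c d * ia G b d *
        (ia G d e * ia G c e)) * g c d with hS6
  set W : ℝ := ∑ x ∈ Wk G k, f (fun j => ev x (i - 3 + (j : ℕ))) with hW
  have T1 := (abs_le.1 w1).1
  have T2 := (abs_le.1 w2).1
  have T3 := (abs_le.1 w5).2
  have e4 : ∑ v, ∑ z ∈ nbs G v, (1 - ((cod G z v : ℝ) / t) ^ 3) *
        ((1 / 4 + κ) * (t : ℝ) ^ 2 - rho2 G v + (cod G z v : ℝ) ^ 2) = S3 - S4 / (t : ℝ) ^ 3 := by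
    rw [hS3, hS4, sum_div, ← sum_sub_distrib]
    refine sum_congr rfl fun v _ => ?_
    rw [sum_nbs, sum_div, ← sum_sub_distrib]
    refine sum_congr rfl fun z _ => ?_
    rw [hg]
    field_simp
  rw [e4]
  have hk4 : (t : ℝ) ^ (k - 1) = (t : ℝ) ^ (k - 4) * (t : ℝ) ^ 3 := by
    rw [← pow_add]; congr 1; omega
  have hk5 : (t : ℝ) ^ (k + 2) = (t : ℝ) ^ (k - 4) * (t : ℝ) ^ 6 := by
    rw [← pow_add]; congr 1; omega
  have hk6 : (t : ℝ) ^ k = (t : ℝ) ^ (k - 4) * (t : ℝ) ^ 4 := by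
    rw [← pow_add]; congr 1; omega
  set P : ℝ := (t : ℝ) ^ (k - 4) with hP
  have hP0 : 0 < P := by positivity
  rw [hk4, hk5]
  rw [hk6] at T1
  have e5 : P * (t : ℝ) ^ 3 * (S3 - S4 / (t : ℝ) ^ 3) = P * ((t : ℝ) ^ 3 * S3 - S4) := by
    field_simp
  rw [e5]
  have e6 : (t : ℝ) ^ (4 - 1) = (t : ℝ) ^ 3 := rfl
  rw [e6] at T2
  push_cast at T1 T2
  -- bound of n t^2
  have e7 : n * (t : ℝ) ^ 2 ≤ γ * n * (t : ℝ) ^ 3 := by
    have : n * (t : ℝ) ^ 2 * 1 ≤ n * (t : ℝ) ^ 2 * (γ * t) := by gcongr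
    calc n * (t : ℝ) ^ 2 = n * (t : ℝ) ^ 2 * 1 := by ring
      _ ≤ n * (t : ℝ) ^ 2 * (γ * t) := this
      _ = γ * n * (t : ℝ) ^ 3 := by ring
  have e8 : S6 - S4 ≤ 12 * γ * n * (t : ℝ) ^ 6 := by
    refine T3.trans ?_
    calc 4 * (t : ℝ) ^ 3 * (S5 + n * (t : ℝ) ^ 2) ≤
        4 * (t : ℝ) ^ 3 * (2 * γ * n * (t : ℝ) ^ 3 + γ * n * (t : ℝ) ^ 3) := by gcongr
      _ = 12 * γ * n * (t : ℝ) ^ 6 := by ring
  -- S1 bound
  have e9 : (t : ℝ) ^ 3 * S3 - S4 - 18 * (γ * n * (t : ℝ) ^ 6) ≤ S1 := by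
    rw [w4]
    have : ((4 : ℝ) - 1) * (2 * (t : ℝ) ^ 2) * γ * n * (t : ℝ) ^ 4 = 6 * (γ * n * (t : ℝ) ^ 6) := by
      ring
    linarith
  have e10 : P * ((t : ℝ) ^ 3 * S3 - S4 - 18 * (γ * n * (t : ℝ) ^ 6)) ≤ P * S1 := by gcongr
  have e11 : ((k : ℝ) - 4) * (2 * (t : ℝ) ^ 2) * γ * n * (P * (t : ℝ) ^ 4) =
      (2 * (k : ℝ) - 8) * (P * (γ * n * (t : ℝ) ^ 6)) := by ring
  rw [e11] at T1
  have e12 : 0 ≤ P * (γ * n * (t : ℝ) ^ 6) := by positivity
  have e13 : (0 : ℝ) ≤ k := Nat.cast_nonneg _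
  have e14 : 0 ≤ (18 * (k : ℝ) + 10) * (P * (γ * n * (t : ℝ) ^ 6)) := by positivity
  have e15 : 20 * ((k : ℝ) + 1) * γ * n * (P * (t : ℝ) ^ 6) =
      20 * ((k : ℝ) + 1) * (P * (γ * n * (t : ℝ) ^ 6)) := by ring
  rw [e15]
  nlinarith

end Pool.Agent.Helper93.PlzA
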